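import Pool.Agent.Lib_MP_89e0e0_co.Standard

/-!
# Q1 is equivalent to the union-closed sets conjecture
-/

namespace Pool.Agent.Results.MP_89e0e0_co.FranklEquivalence

open Pool.Agent.UCF

/-- For every real `c < 1` the following are equivalent: the union-closed sets conjecture in its
standard form; the same in the normalisation of the problem; the positive answer to Q1; and the
positive answer to Q1 for those union-closed families `F` which have an element in at least `c|F|`
members. -/
theorem result (c : ℝ) (hc : c < 1) : List.TFAE [Standard, UCConj, Q1, Q1Abundant c] := by
  tfae_have 1 ↔ 2 := standard_iff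
  tfae_have 2 ↔ 3 := Q1_iff.symm
  tfae_have 2 ↔ 4 := (abundant_iff hc).symm
  tfae_finish

end Pool.Agent.Results.MP_89e0e0_co.FranklEquivalence
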